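import Pool.Agent.T9h72.KU.Spec

/-!
# Piece M1 of `Pool/Agent/T9h72/KU/Spec.lean`
-/

set_option autoImplicit false

namespace Pool.Agent.T9h70.KU

open MeasureTheory Set Pool.Agent.R190.KR Pool.Agent.T9h72.KU

lemma K_mul_int (n m : ℕ) (hm : 1 ≤ m) : K n m * ∫ x in (0 : ℝ)..1, G n m x = 1 := by
  rw [← intervalIntegral.integral_const_mul, integral_G n m hm le_rfl zero_le_one le_rfl, T_zero,
    T_one, sub_zero]

lemma ii (n m : ℕ) (hm : 1 ≤ m) {a b : ℝ} (ha : 0 ≤ a) (ha' : a ≤ 1) (hb : 0 ≤ b) (hb' : b ≤ 1) :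
    IntervalIntegrable (fun x => G n m x * (x - 1 / 2)) volume a b :=
  (intervalIntegrable_G n m hm ha ha' hb hb').mul_continuousOn (by fun_prop)

lemma N1_eq (n m : ℕ) (hm : 1 ≤ m) : N1 n m = ∫ x in (0 : ℝ)..1, G n m x * (x - 1 / 2) := by
  unfold N1
  have e2 : ∫ x in (1 / 2 : ℝ)..1, G n m (1 - x) * (x - 1 / 2) =
      -∫ x in (0 : ℝ)..(1 / 2), G n m x * (x - 1 / 2) := by
    have h := intervalIntegral.integral_comp_sub_left (a := 1 / 2) (b := 1)
      (fun x => -(G n m x * (x - 1 / 2))) 1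
    rw [sub_self, show (1 : ℝ) - 1 / 2 = 1 / 2 by norm_num] at h
    rw [← intervalIntegral.integral_neg (f := fun x => G n m x * (x - 1 / 2)), ← h]
    congr 1
    funext x
    ring
  have i2 : IntervalIntegrable (fun x => G n m (1 - x) * (x - 1 / 2)) volume (1 / 2) 1 := by
    have h := (intervalIntegrable_G n m hm (a := 1 / 2) (b := 0) (by norm_num) (by norm_num)
        le_rfl zero_le_one).comp_sub_left 1
    rw [show (1 : ℝ) - 1 / 2 = 1 / 2 by norm_num, sub_zero] at h
    exact h.mul_continuousOn (by fun_prop)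
  have e1 : ∫ x in (1 / 2 : ℝ)..1, S n m x * (x - 1 / 2) =
      (∫ x in (1 / 2 : ℝ)..1, G n m x * (x - 1 / 2)) -
        ∫ x in (1 / 2 : ℝ)..1, G n m (1 - x) * (x - 1 / 2) := by
    rw [← intervalIntegral.integral_sub (ii n m hm (by norm_num) (by norm_num) zero_le_one le_rfl)
      i2]
    congr 1
    funext x
    unfold S
    ring
  rw [e1, e2, sub_neg_eq_add, add_comm, intervalIntegral.integral_add_adjacent_intervals
    (ii n m hm le_rfl zero_le_one (by norm_num) (by norm_num))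
    (ii n m hm (by norm_num) (by norm_num) zero_le_one le_rfl)]

/-- (M1) -/
theorem m1 : S_M1 := by
  intro n m hm
  have h1 : ∫ x in (0 : ℝ)..1, G n m x * (x - 1 / 2) =
      1 / 2 * (∫ x in (0 : ℝ)..1, G n m x) - ∫ x in (0 : ℝ)..1, G n (m + 1) x := by
    rw [← intervalIntegral.integral_const_mul, ← intervalIntegral.integral_sub
      ((intervalIntegrable_G n m hm le_rfl zero_le_one zero_le_one le_rfl).const_mul _)
      (intervalIntegrable_G n (m + 1) (by omega) le_rfl zero_le_one zero_le_one le_rfl)]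
    congr 1
    funext x
    unfold G
    ring
  have h2 := K_mul_int n m hm
  have h3 := K_mul_int n (m + 1) (by omega)
  set I := ∫ x in (0 : ℝ)..1, G n m x with hI
  set J := ∫ x in (0 : ℝ)..1, G n (m + 1) x with hJ
  have h4 : K n m = (((m : ℝ) + 1) / (m + 2)) ^ (n + 1) * K n (m + 1) := by
    unfold K
    push_cast
    rw [div_pow, show ((m : ℝ) + 1 + 1) = m + 2 by ring]
    field_simp
  rw [N1_eq n m hm, h1]
  calc K n m * (1 / 2 * I - J) = 1 / 2 * (K n m * I) - K n m * J := by ring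
    _ = 1 / 2 - (((m : ℝ) + 1) / (m + 2)) ^ (n + 1) * (K n (m + 1) * J) := by
        rw [h2, h4]
        ring
    _ = 1 / 2 - (((m : ℝ) + 1) / (m + 2)) ^ (n + 1) := by rw [h3, mul_one]

end Pool.Agent.T9h70.KU
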