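import Pool.Agent.T9h72.KU.Spec

/-!
# Piece PAT of `Pool/Agent/T9h72/KU/Spec.lean`: the sign pattern
-/

set_option autoImplicit false

namespace Pool.Agent.T9h70.KU

open MeasureTheory Set Pool.Agent.R190.KR Pool.Agent.T9h72.KU

/-- (PAT) -/
theorem pat (hSh : S_SHAPE) : S_PAT := by
  intro n m hn hm c hc β hβ a ha
  obtain ⟨e, he, hconv, hconc⟩ := hSh n m hn hm c hc
  have hc1 : c < 1 := hc.mem.2
  set r : ℝ → ℝ := fun x => S n m x - (S n m β + a * (x - β)) with hr
  have hβ0 : 0 ≤ S n m β := by
    have h := hc.mono.monotoneOn (left_mem_Icc.2 hc.mem.1.le) hβ hβ.1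
    rwa [S_half] at h
  have hcr : ContinuousOn r (Icc β 1) :=
    ((continuousOn_S n m hm).mono (Icc_subset_Icc (by linarith [hβ.1]) le_rfl)).sub
      (by fun_prop : Continuous fun x : ℝ => S n m β + a * (x - β)).continuousOn
  have hrβ : r β = 0 := by
    rw [hr]
    ring
  have hβc : β ≤ c := hβ.2
  have hr1 : r 1 < 0 := by
    show S n m 1 - (S n m β + a * (1 - β)) < 0
    rw [S_at_one n m hn hm]
    have : 0 < a * (1 - β) := mul_pos ha (by linarith)
    linarith
  -- the part on the right of the peak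
  have late : ∀ z t, c ≤ t → t ≤ z → z ≤ 1 → 0 < r z → 0 < r t := by
    intro z t hct htz hz1 hrz
    have h1 : 0 < S n m z - (S n m β + a * (z - β)) := hrz
    have h2 : 0 ≤ a * (z - β) := mul_nonneg ha.le (by linarith)
    have h3 := hc.anti t z hct htz hz1 (by linarith)
    have h4 : 0 ≤ a * (z - t) := mul_nonneg ha.le (by linarith)
    show 0 < S n m t - (S n m β + a * (t - β))
    nlinarith
  have haff : ∀ (x y p q : ℝ), p + q = 1 → p * r x + q * r y =
      (p * S n m x + q * S n m y) - (S n m β + a * (p * x + q * y - β)) := by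
    intro x y p q hpq
    rw [hr]
    linear_combination (a * β - S n m β) * hpq
  have rconv : ConvexOn ℝ (Icc (1 / 2) e) r := by
    refine ⟨hconv.1, fun x hx y hy p q hp hq hpq => ?_⟩
    have h1 := hconv.2 hx hy hp hq hpq
    rw [smul_eq_mul, smul_eq_mul, smul_eq_mul, smul_eq_mul] at h1 ⊢
    rw [haff x y p q hpq]
    show S n m (p * x + q * y) - (S n m β + a * (p * x + q * y - β)) ≤ _
    linarith
  have rconc : ConcaveOn ℝ (Icc e c) r := by
    refine ⟨hconc.1, fun x hx y hy p q hp hq hpq => ?_⟩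
    have h1 := hconc.2 hx hy hp hq hpq
    rw [smul_eq_mul, smul_eq_mul, smul_eq_mul, smul_eq_mul] at h1 ⊢
    rw [haff x y p q hpq]
    show _ ≤ S n m (p * x + q * y) - (S n m β + a * (p * x + q * y - β))
    linarith
  have early : ∀ y x, β ≤ y → y ≤ x → x ≤ e → 0 < r y → 0 < r x := by
    intro y x hy hyx hxe hry
    have h1 := rconv.le_max_of_mem_Icc (x := β) (y := x) (z := y) ⟨hβ.1, by linarith⟩
      ⟨by linarith [hβ.1], hxe⟩ ⟨hy, hyx⟩
    rw [hrβ] at h1
    rcases le_max_iff.1 h1 with h2 | h2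
    · linarith
    · linarith
  have Q : ∀ y x z, β ≤ y → y ≤ x → x ≤ z → z ≤ 1 → 0 < r y → 0 < r z → 0 < r x := by
    intro y x z hy hyx hxz hz hry hrz
    by_cases hxc : c ≤ x
    · exact late z x hxc hxz hz hrz
    · push Not at hxc
      have h1 : 0 < r (min z c) := by
        rcases le_total z c with h | h
        · rw [min_eq_left h]
          exact hrz
        · rw [min_eq_right h]
          exact late z c le_rfl h hz hrz
      by_cases hxe : x ≤ e
      · exact early y x hy hyx hxe hry
      · push Not at hxe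
        have h2 : 0 < r (max y e) := by
          rcases le_total y e with h | h
          · rw [max_eq_right h]
            exact early y e hy h le_rfl hry
          · rw [max_eq_left h]
            exact hry
        have h3 := rconc.min_le_of_mem_Icc (x := max y e) (y := min z c) (z := x)
          ⟨le_max_right _ _, max_le (by linarith) he.2⟩
          ⟨le_min (by linarith) he.2, min_le_right _ _⟩
          ⟨max_le hyx hxe.le, le_min hxz hxc.le⟩
        exact (lt_min h2 h1).trans_le h3
  -- the set where `r > 0`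
  set Z : Set ℝ := {x | x ∈ Icc β 1 ∧ 0 < r x} with hZ
  rcases Z.eq_empty_or_nonempty with hemp | hne
  · refine ⟨β, β, le_rfl, le_rfl, by linarith, ?_, ?_, ?_⟩
    · intro x hx
      rw [Icc_self, mem_singleton_iff] at hx
      rw [hx]
      linarith
    · intro x hx
      rw [Icc_self, mem_singleton_iff] at hx
      rw [hx]
      linarith
    · intro x hx
      by_contra h
      push Not at h
      have : x ∈ Z := ⟨hx, by rw [hr]; linarith⟩
      rw [hemp] at this
      exact this
  have hbb : BddBelow Z := ⟨β, fun x hx => hx.1.1⟩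
  have hba : BddAbove Z := ⟨1, fun x hx => hx.1.2⟩
  have hK : IsClosed (Icc β 1 ∩ r ⁻¹' Ici 0) :=
    hcr.preimage_isClosed_of_isClosed isClosed_Icc isClosed_Ici
  have hZK : closure Z ⊆ Icc β 1 ∩ r ⁻¹' Ici 0 :=
    closure_minimal (fun x hx => ⟨hx.1, hx.2.le⟩) hK
  have k1 := hZK (csInf_mem_closure hne hbb)
  have k2 := hZK (csSup_mem_closure hne hba)
  set c1 := sInf Z with hc1d
  set c2 := sSup Z with hc2d
  have hle : c1 ≤ c2 := by
    obtain ⟨x, hx⟩ := hne
    exact (csInf_le hbb hx).trans (le_csSup hba hx)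
  have e1 : r c1 ≤ 0 := by
    by_contra h
    push Not at h
    have h1 : r c1 / 2 ∈ Icc (r β) (r c1) := by
      rw [hrβ]
      constructor <;> linarith
    obtain ⟨y, hy, hy2⟩ := intermediate_value_Icc k1.1.1
      (hcr.mono (Icc_subset_Icc le_rfl k1.1.2)) h1
    have h2 : y ∈ Z := ⟨⟨hy.1, hy.2.trans k1.1.2⟩, by rw [hy2]; linarith⟩
    have h3 : y = c1 := le_antisymm hy.2 (csInf_le hbb h2)
    rw [h3] at hy2
    linarith
  have e2 : r c2 ≤ 0 := by
    by_contra h
    push Not at h
    have h1 : r c2 / 2 ∈ Icc (r 1) (r c2) := by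
      constructor <;> linarith
    obtain ⟨y, hy, hy2⟩ := intermediate_value_Icc' k2.1.2
      (hcr.mono (Icc_subset_Icc k2.1.1 le_rfl)) h1
    have h2 : y ∈ Z := ⟨⟨k2.1.1.trans hy.1, hy.2⟩, by rw [hy2]; linarith⟩
    have h3 : y = c2 := le_antisymm (le_csSup hba h2) hy.1
    rw [h3] at hy2
    linarith
  have hc21 : c2 < 1 := by
    rcases k2.1.2.lt_or_eq with h | h
    · exact h
    · have h3 : 0 ≤ r c2 := k2.2
      rw [h] at h3
      linarith
  refine ⟨c1, c2, k1.1.1, hle, hc21, ?_, ?_, ?_⟩
  · intro x hx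
    have h1 : r x ≤ 0 := by
      rcases hx.2.lt_or_eq with h | h
      · by_contra h2
        push Not at h2
        exact absurd (csInf_le hbb (show x ∈ Z from ⟨⟨hx.1, hx.2.trans k1.1.2⟩, h2⟩)) (not_le.2 h)
      · rw [h]
        exact e1
    have h2 : S n m x - (S n m β + a * (x - β)) ≤ 0 := h1
    linarith
  · intro x hx
    have h1 : 0 ≤ r x := by
      rcases hx.1.lt_or_eq with h | h
      · rcases hx.2.lt_or_eq with h' | h'
        · obtain ⟨y, hy, hyx⟩ := exists_lt_of_csInf_lt hne h
          obtain ⟨z, hz, hxz⟩ := exists_lt_of_lt_csSup hne h'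
          exact (Q y x z hy.1.1 hyx.le hxz.le hz.1.2 hy.2 hz.2).le
        · rw [h']
          exact k2.2
      · rw [← h]
        exact k1.2
    have h2 : 0 ≤ S n m x - (S n m β + a * (x - β)) := h1
    linarith
  · intro x hx
    have h1 : r x ≤ 0 := by
      rcases hx.1.lt_or_eq with h | h
      · by_contra h2
        push Not at h2
        exact absurd (le_csSup hba (show x ∈ Z from ⟨⟨k2.1.1.trans hx.1, hx.2⟩, h2⟩)) (not_le.2 h)
      · rw [← h]
        exact e2
    have h2 : S n m x - (S n m β + a * (x - β)) ≤ 0 := h1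
    linarith

end Pool.Agent.T9h70.KU
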